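import Pool.Agent.H.MP_4002ad_an.B

set_option autoImplicit false

namespace Pool.Agent.Results.MP_4002ad_an.No
open scoped ENNReal InnerProductSpace Matrix
open MeasureTheory FourierTransform Pool.Agent.H.MP_4002ad_an

def IsONB {H I : Type} [NormedAddCommGroup H] [InnerProductSpace ℂ H] (P : I → H → Prop) : Prop :=
  ∃ b : HilbertBasis I ℂ H, ∀ i, P i (b i)

section
variable {V : Type} [NormedAddCommGroup V] [InnerProductSpace ℝ V] [FiniteDimensional ℝ V]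
  [MeasurableSpace V] [BorelSpace V]

structure ONB {I : Type} (F : I → V → ℂ) : Prop where
  out : IsONB fun i (v : Lp ℂ 2 (volume : Measure V)) => v =ᵐ[volume] F i

structure FT (f g : V → ℂ) : Prop where
  out : ∃ u : Lp ℂ 2 (volume : Measure V), u =ᵐ[volume] f ∧
    (𝓕 u : Lp ℂ 2 (volume : Measure V)) =ᵐ[volume] g
end

abbrev E (n : ℕ) := EuclideanSpace ℝ (Fin n)

def act {n : ℕ} (A : Matrix (Fin n) (Fin n) ℝ) (x : E n) : E n := WithLp.toLp 2 (A *ᵥ x.ofLp)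

noncomputable def sys {n : ℕ} (A : Matrix (Fin n) (Fin n) ℝ) (ψ : E n → ℂ)
    (p : ℤ × (Fin n → ℤ)) (x : E n) : ℂ :=
  ((|A.det| ^ ((p.1 : ℝ) / 2) : ℝ) : ℂ) * ψ (act (A ^ p.1) x - WithLp.toLp 2 fun i => (p.2 i : ℝ))

noncomputable def cal {n : ℕ} (A : Matrix (Fin n) (Fin n) ℝ) (g : E n → ℂ) (ξ : E n) : ℝ≥0∞ :=
  ∑' j : ℤ, ‖g (act (Aᵀ ^ j) ξ)‖ₑ ^ 2

noncomputable abbrev L (n : ℕ) := Lp ℂ 2 (volume : Measure (E n))

theorem act_eq {n : ℕ} (A : Matrix (Fin n) (Fin n) ℝ) (x : E n) :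
    act A x = Matrix.toEuclideanLin A x := rfl

theorem dpow {a b : ℝ} (ha : a ≠ 0) (hb : b ≠ 0) (j : ℤ) :
    (!![a, 0; 0, b] : Matrix (Fin 2) (Fin 2) ℝ) ^ j = !![a ^ j, 0; 0, b ^ j] := by
  have h : ∀ n : ℕ, (!![a, 0; 0, b] : Matrix (Fin 2) (Fin 2) ℝ) ^ n = !![a ^ n, 0; 0, b ^ n] := by
    intro n
    induction n with
    | zero => simp [Matrix.one_fin_two]
    | succ n ih => rw [pow_succ, ih]; simp [pow_succ]
  cases j with
  | ofNat n => simp [h]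
  | negSucc n =>
    rw [zpow_negSucc, zpow_negSucc, zpow_negSucc, h]
    refine Matrix.inv_eq_left_inv ?_
    simp [Matrix.one_fin_two, ha, hb]

noncomputable def pr (x : E 2) : ℝ × ℝ := (x 0, x 1)

theorem pr_mp : MeasurePreserving pr volume volume :=
  (volume_preserving_finTwoArrow ℝ).comp (PiLp.volume_preserving_ofLp (Fin 2))

theorem pr_emb : MeasurableEmbedding pr :=
  ((MeasurableEquiv.toLp 2 (Fin 2 → ℝ)).symm.trans MeasurableEquiv.finTwoArrow).measurableEmbedding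

theorem ap (u v : ℝ) (x : E 2) : pr (Matrix.toEuclideanLin !![u, 0; 0, v] x) = (u * x 0, v * x 1) := by
  simp [pr, Matrix.toLpLin_apply, Matrix.mulVec, dotProduct, Fin.sum_univ_two]

theorem inn (x y : E 2) : ⟪x, y⟫_ℝ = (pr x).1 * (pr y).1 + (pr x).2 * (pr y).2 := by
  simp [pr, PiLp.inner_apply, Fin.sum_univ_two, mul_comm]

theorem result (a : ℝ) (ha : 1 < a) :
    ∃ ψ g : E 2 → ℂ, FT ψ g ∧ ONB (sys !![a, 0; 0, 1 / 2] ψ) ∧
      ∀ᵐ ξ, cal !![a, 0; 0, 1 / 2] g ξ < 1 := by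
  obtain ⟨p, hp⟩ := bij
  have a0 : 0 < a := by linarith
  have mg : Measurable fun x : E 2 => Hh p 0 0 (sh a (pr x).1) (pr x).2 :=
    (Hh_meas p a 0 0).comp pr_mp.measurable
  have ng : ∫⁻ x : E 2, ‖Hh p 0 0 (sh a (pr x).1) (pr x).2‖ₑ ^ 2 = 1 := by
    rw [← g_one p ha]
    exact pr_mp.lintegral_comp_emb pr_emb fun y => ‖Hh p 0 0 (sh a y.1) y.2‖ₑ ^ 2
  have hg := mem2 mg.aestronglyMeasurable (by rw [ng]; simp)
  set g : L 2 := hg.toLp _ with hgd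
  have g1 : ‖g‖ = 1 := by
    have : eLpNorm (fun x : E 2 => Hh p 0 0 (sh a (pr x).1) (pr x).2) 2 volume = 1 :=
      (ENNReal.pow_right_strictMono two_ne_zero).injective (by simp only [el, ng, one_pow])
    rw [hgd, Lp.norm_toLp, this, ENNReal.toReal_one]
  have z0 : ∀ᵐ x : E 2, (pr x).1 ≠ 0 :=
    pr_mp.quasiMeasurePreserving.ae (p := fun y : ℝ × ℝ => y.1 ≠ 0)
      ((Measure.quasiMeasurePreserving_fst (μ := volume) (ν := volume)).ae (nz 0))
  have gc : ∀ u v : ℝ, u ≠ 0 → v ≠ 0 → ∀ᵐ x : E 2, g (Matrix.toEuclideanLin !![u, 0; 0, v] x) =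
      Hh p 0 0 (sh a (u * x 0)) (v * x 1) := fun u v hu hv => by
    obtain ⟨m1, m2⟩ := mapT (Matrix.toEuclideanLin !![u, 0; 0, v])
      (by rw [LinearMap.det_toLpLin]; simp [hu, hv]) 0
    filter_upwards [(qmpT m1 m2).ae hg.coeFn_toLp] with x hx
    simp only [sub_zero, ap] at hx
    exact hx
  have key : ∀ q : ℤ × (Fin 2 → ℤ), ∃ v : L 2, ‖v‖ = 1 ∧
      (v =ᵐ[volume] sys !![a, 0; 0, 1 / 2] (𝓕⁻ g : L 2) q) ∧
      (𝓕 v : L 2) =ᵐ[volume] fun x => G p a q.1 (q.2 0) (q.2 1) (pr x) := by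
    rintro ⟨j, k⟩
    have h1 : 0 < a ^ j := by positivity
    have h2 : (0 : ℝ) < 2 ^ j := by positivity
    have h3 : |(!![a, 0; 0, 1 / 2] : Matrix (Fin 2) (Fin 2) ℝ).det| ^ ((j : ℝ) / 2) =
        √(a ^ j) * (√(2 ^ j))⁻¹ := by
      rw [Matrix.det_fin_two_of, mul_zero, sub_zero, abs_of_pos (by positivity),
        div_eq_mul_one_div (j : ℝ), Real.rpow_mul (by positivity), Real.rpow_intCast, ← Real.sqrt_eq_rpow, mul_zpow,
        Real.sqrt_mul h1.le, one_div, inv_zpow, Real.sqrt_inv]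
    have h4 : (√(a ^ j) * (√(2 ^ j))⁻¹) ^ 2 = a ^ j * (2 ^ j)⁻¹ := by
      rw [mul_pow, inv_pow, Real.sq_sqrt h1.le, Real.sq_sqrt h2.le]
    obtain ⟨U, V, hU, hV, hUV⟩ := inter (Matrix.toEuclideanLin !![a ^ j, 0; 0, (2 ^ j)⁻¹])
      (Matrix.toEuclideanLin !![(a ^ j)⁻¹, 0; 0, 2 ^ j]) (WithLp.toLp 2 fun i => (k i : ℝ))
      (√(a ^ j) * (√(2 ^ j))⁻¹) (by positivity)
      (by rw [LinearMap.det_toLpLin, h4, Matrix.det_fin_two_of, mul_zero, sub_zero,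
        abs_of_pos (by positivity)])
      (by rw [LinearMap.det_toLpLin, h4, Matrix.det_fin_two_of, mul_zero, sub_zero,
        abs_of_pos (by positivity), mul_inv, inv_inv])
      (fun x ξ => by
        rw [inn, inn, ap, ap]
        simp only [pr]
        field_simp)
    refine ⟨U (𝓕⁻ g), ?_, ?_, ?_⟩
    · rw [U.norm_map, ← Lp.norm_fourier_eq, fourier_fourierInv_eq, g1]
    · refine (hU _).trans (.of_forall fun x => ?_)
      simp only [sys, act_eq]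
      rw [h3, dpow a0.ne' (by norm_num), one_div, inv_zpow]
    · rw [hUV, fourier_fourierInv_eq]
      filter_upwards [hV g, gc _ _ (inv_pos.mpr h1).ne' h2.ne', z0] with x e1 e2 e3
      have e4 : x 0 ≠ 0 := e3
      rw [e1, e2, inn, ap, G, ← Hh_sc p j, ← zpow_neg, sh_mul ha e4, sub_neg_eq_add, neg_add,
        AddChar.map_add_eq_mul, Circle.coe_mul, mul_inv, inv_inv, Complex.ofReal_mul, zpow_neg]
      simp only [pr, div_eq_mul_inv, mul_comm (x 0), mul_assoc]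
      ring
  choose v v1 v2 v3 using key
  refine ⟨(𝓕⁻ g : L 2), g, ⟨𝓕⁻ g, .rfl, by rw [fourier_fourierInv_eq]⟩, ⟨?_⟩, ?_⟩
  · obtain ⟨b, hb⟩ := onb v v1 fun f => by
      obtain ⟨F, mF, hF⟩ : ∃ F : ℝ × ℝ → ℂ, Measurable F ∧ ∀ x, F (pr x) = (𝓕 f : L 2) x :=
        ⟨fun y => (𝓕 f : L 2) (WithLp.toLp 2 ![y.1, y.2]),
          (Lp.stronglyMeasurable _).measurable.comp (Continuous.measurable (by fun_prop)),
          fun x => congrArg _ (by ext i; fin_cases i <;> rfl)⟩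
      have n1 : ∫⁻ y, ‖F y‖ₑ ^ 2 = ‖f‖ₑ ^ 2 := by
        rw [← pr_mp.lintegral_comp_emb pr_emb, esq, ← Lp.norm_fourier_eq, ← esq, Lp.enorm_def, el]
        simp only [hF]
      have e1 : ∀ q, (fun x => ⟪(𝓕 (v q) : L 2) x, (𝓕 f : L 2) x⟫_ℂ) =ᵐ[volume]
          fun x => (starRingEnd ℂ) (G p a q.1 (q.2 0) (q.2 1) (pr x)) * F (pr x) := fun q => by
        filter_upwards [v3 q] with x hx
        rw [hx, hF, RCLike.inner_apply, mul_comm]
      have e2 : ∀ q, ⟪v q, f⟫_ℂ = ∫ y, (starRingEnd ℂ) (G p a q.1 (q.2 0) (q.2 1) y) * F y :=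
        fun q => by
          rw [← Lp.inner_fourier_eq, L2.inner_def, integral_congr_ae (e1 q)]
          exact pr_mp.integral_comp pr_emb fun y =>
            (starRingEnd ℂ) (G p a q.1 (q.2 0) (q.2 1) y) * F y
      rw [← n1, ← pars hp ha F mF (by rw [n1]; simp) fun j k l =>
        (pr_mp.integrable_comp_emb pr_emb).mp ((L2.integrable_inner _ _).congr (e1 (j, ![k, l])))]
      simp only [e2]
      rw [ENNReal.tsum_prod', ENNReal.tsum_prod']
      refine tsum_congr fun j => ?_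
      rw [ENNReal.tsum_comm, ← (finTwoArrowEquiv ℤ).symm.tsum_eq, ENNReal.tsum_prod']
      rfl
    exact ⟨b, fun q => hb q ▸ v2 q⟩
  · have hT : (!![a, 0; 0, 1 / 2] : Matrix (Fin 2) (Fin 2) ℝ)ᵀ = !![a, 0; 0, 1 / 2] := by
      ext i j; fin_cases i <;> fin_cases j <;> rfl
    filter_upwards [ae_all_iff.mpr fun j : ℤ => gc (a ^ j) (2 ^ j)⁻¹ (by positivity)
      (by positivity), z0] with x e1 e2
    simp only [cal, act_eq, hT, dpow a0.ne' (show (1 / 2 : ℝ) ≠ 0 by norm_num)]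
    simp only [one_div, inv_zpow, e1]
    have e3 : x 0 ≠ 0 := e2
    simp only [sh_mul ha e3]
    exact cald hp _ _

end Pool.Agent.Results.MP_4002ad_an.No
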